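import Mathlib
import Pool.Agent.Y140.AW.Fin5

/-!
# Embedding problems with kernels `(G ≀ A_n)^Ω` over the affine line over `F_p`, `p` odd

Let `κ` be a finite field of odd characteristic `p` (for instance `F_p`). Let `G` be a finite perfect
group; no realization of `G` is assumed. For infinitely many `n` the following holds for `H = G ≀ A_n`:
for every finite Galois extension `L` of `κ(t)` which is unramified over `κ[t]` and every finite set
`Ω` with an action of `Gal(L/κ(t))` the embedding problem `H^Ω ⋊ Gal(L/κ(t)) → Gal(L/κ(t))` has a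
proper solution which is unramified over `κ[t]`. In particular `H^Ω ⋊ C` is the group of a connected
étale Galois cover of the affine line over `κ` for every finite cyclic group `C` and every finite set
`Ω` with an action of `C`. For `n ≥ max(p, 5)` these groups `H^Ω ⋊ C` are cyclic-by-quasi-`p`, so they
are instances of the conjecture.

The cover is found by specialising a family of covers of degree `n` of the line, given by functions
`f = x + h^p` (`h` with poles off infinity) on a curve with a `G`-covering. The differential of `f` is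
that of `x`, so all fibres outside infinity are unramified also after specialisation; the norm of the
different is a constant square for suitable `h`, and Dirichlet's theorem gives the size of the group.
The family is used over `L` (Weil restriction), and its parameters are
specialised to polynomials, so that nothing ramifies in the finite part.
-/

set_option autoImplicit false

namespace Pool.Agent.Results.MP_37a734_ag.AlternatingWreath

open Polynomial

/-- The alternating wreath product `G ≀ A_n`: the group of the elements of `G^n ⋊ S_n` over even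
permutations. -/
def AltWreath (G : Type) [Group G] (n : ℕ) : Type :=
  (Equiv.Perm.sign.comp (SemidirectProduct.rightHom :
    (Fin n → G) ⋊[mulAutArrow] Equiv.Perm (Fin n) →* Equiv.Perm (Fin n))).ker

/-- Its group structure. -/
instance instGroup (G : Type) [Group G] (n : ℕ) : Group (AltWreath G n) :=
  inferInstanceAs (Group (Equiv.Perm.sign.comp (SemidirectProduct.rightHom :
    (Fin n → G) ⋊[mulAutArrow] Equiv.Perm (Fin n) →* Equiv.Perm (Fin n))).ker)

/-- `H` is the group of a finite Galois extension `L` of `κ(t)` which is unramified over `κ[t]`, that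
is, at all primes of the integral closure of `κ[t]` in `L`. -/
def AffineLineGroup (κ H : Type) [Field κ] [Group H] : Prop :=
  ∃ (L : Type) (_ : Field L) (_ : Algebra (RatFunc κ) L) (_ : Algebra κ[X] L)
    (_ : IsScalarTower κ[X] (RatFunc κ) L) (_ : FiniteDimensional (RatFunc κ) L)
    (_ : IsGalois (RatFunc κ) L), Nonempty ((L ≃ₐ[RatFunc κ] L) ≃* H) ∧
    ∀ (q : Ideal (integralClosure κ[X] L)) (_ : q.IsPrime), Algebra.IsUnramifiedAt κ[X] q

/-- The extension `L₀` of `κ(t)` is contained in a finite Galois extension `L` of `κ(t)`, unramified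
over `κ[t]`, with an isomorphism `γ` of `Gal(L/κ(t))` with `W` such that `σ` acts on `L₀` as
`r (γ σ)`: the embedding problem `r : W → Gal(L₀/κ(t))` has a proper solution unramified over `κ[t]`. -/
def AffineLineSolution (κ L₀ W : Type) [Field κ] [Field L₀] [Algebra (RatFunc κ) L₀] [Group W]
    (r : W →* (L₀ ≃ₐ[RatFunc κ] L₀)) : Prop :=
  ∃ (L : Type) (_ : Field L) (_ : Algebra (RatFunc κ) L) (_ : Algebra κ[X] L)
    (_ : IsScalarTower κ[X] (RatFunc κ) L) (_ : Algebra L₀ L) (_ : IsScalarTower (RatFunc κ) L₀ L)
    (_ : FiniteDimensional (RatFunc κ) L) (_ : IsGalois (RatFunc κ) L)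
    (γ : (L ≃ₐ[RatFunc κ] L) ≃* W),
    (∀ (σ : L ≃ₐ[RatFunc κ] L) (a : L₀), σ (algebraMap L₀ L a) = algebraMap L₀ L (r (γ σ) a)) ∧
    ∀ (q : Ideal (integralClosure κ[X] L)) (_ : q.IsPrime), Algebra.IsUnramifiedAt κ[X] q

theorem result (p : ℕ) [Fact p.Prime] (hp : p ≠ 2) (κ : Type) [Field κ] [Finite κ] [CharP κ p]
    (G : Type) [Group G] [Finite G] (hG : commutator G = ⊤) (n₀ : ℕ) :
    ∃ n ≥ n₀, (∀ (L : Type) [Field L] [Algebra (RatFunc κ) L] [Algebra κ[X] L]
      [IsScalarTower κ[X] (RatFunc κ) L] [FiniteDimensional (RatFunc κ) L]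
      [IsGalois (RatFunc κ) L],
      (∀ (q : Ideal (integralClosure κ[X] L)) (_ : q.IsPrime), Algebra.IsUnramifiedAt κ[X] q) →
      ∀ (Ω : Type) [Finite Ω] [MulAction (L ≃ₐ[RatFunc κ] L) Ω],
        AffineLineSolution κ L ((Ω → AltWreath G n) ⋊[mulAutArrow] (L ≃ₐ[RatFunc κ] L))
          SemidirectProduct.rightHom) ∧
      ∀ (C Ω : Type) [Group C] [Finite C] [Finite Ω] [MulAction C Ω], IsCyclic C →
        AffineLineGroup κ ((Ω → AltWreath G n) ⋊[mulAutArrow] C) :=
  Pool.Agent.Y140.AW.out7 p hp κ G hG n₀

end Pool.Agent.Results.MP_37a734_ag.AlternatingWreath
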